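import Pool.Agent.TH454.BW.Blow
import Pool.Agent.Y384.DM.Basic

/-!
# Assigned sets of vertices: the lower bound
-/

set_option autoImplicit false

namespace Pool.Agent.Y384.AS

open Finset SimpleGraph

/-- The graph of `H` on the image of `f`, with the vertices in `Z` joined to all vertices. -/
def mcone {A V : Type} (H : SimpleGraph A) (f : A ↪ V) (Z : Finset V) : SimpleGraph V where
  Adj a b := a ≠ b ∧ (a ∈ Z ∨ b ∈ Z ∨ (H.map f).Adj a b)
  symm := ⟨fun a b h => ⟨h.1.symm, by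
    rcases h.2 with h | h | h
    · exact Or.inr (Or.inl h)
    · exact Or.inl h
    · exact Or.inr (Or.inr h.symm)⟩⟩
  loopless := ⟨fun a h => h.1 rfl⟩

theorem mcone_free {A V : Type} [Finite V] (H : SimpleGraph A) (f : A ↪ V) (Z : Finset V)
    (s t m : ℕ) (hZ : #Z = m) (hs : m + 1 ≤ s) (ht : m + 1 ≤ t)
    (hH : (completeBipartiteGraph (Fin (s - m)) (Fin (t - m))).Free H) :
    (completeBipartiteGraph (Fin s) (Fin t)).Free (mcone H f Z) := by
  classical
  have := Fintype.ofFinite V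
  intro hcon
  rw [completeBipartiteGraph_isContained_iff] at hcon
  obtain ⟨S, T, hS, hT, hST⟩ := hcon
  rw [Fintype.card_fin] at hS hT
  have hS' : s - m ≤ #(S \ Z) := by
    have := le_card_sdiff Z S
    omega
  have hT' : t - m ≤ #(T \ Z) := by
    have := le_card_sdiff Z T
    omega
  have hadj : ∀ a ∈ S \ Z, ∀ b ∈ T \ Z, ∃ a' b', H.Adj a' b' ∧ f a' = a ∧ f b' = b := by
    intro a ha b hb
    obtain ⟨ha2, ha1⟩ := mem_sdiff.1 ha
    obtain ⟨hb2, hb1⟩ := mem_sdiff.1 hb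
    obtain ⟨-, h1 | h1 | h1⟩ := hST (mem_coe.2 ha2) (mem_coe.2 hb2)
    · exact absurd h1 ha1
    · exact absurd h1 hb1
    · rw [SimpleGraph.map_adj] at h1
      exact h1
  have himS : S \ Z ⊆ ((S \ Z).preimage f f.injective.injOn).map f := by
    intro a ha
    obtain ⟨b, hb⟩ : (T \ Z).Nonempty := card_pos.1 (by omega)
    obtain ⟨a', b', -, h2, -⟩ := hadj a ha b hb
    rw [mem_map]
    refine ⟨a', ?_, h2⟩
    rw [mem_preimage, h2]
    exact ha
  have himT : T \ Z ⊆ ((T \ Z).preimage f f.injective.injOn).map f := by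
    intro b hb
    obtain ⟨a, ha⟩ : (S \ Z).Nonempty := card_pos.1 (by omega)
    obtain ⟨a', b', -, -, h2⟩ := hadj a ha b hb
    rw [mem_map]
    refine ⟨b', ?_, h2⟩
    rw [mem_preimage, h2]
    exact hb
  have hS2 : s - m ≤ #((S \ Z).preimage f f.injective.injOn) := by
    have := card_le_card himS
    rw [card_map] at this
    omega
  have hT2 : t - m ≤ #((T \ Z).preimage f f.injective.injOn) := by
    have := card_le_card himT
    rw [card_map] at this
    omega
  obtain ⟨S₁, hS₁, hS₂⟩ := exists_subset_card_eq hS2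
  obtain ⟨T₁, hT₁, hT₂⟩ := exists_subset_card_eq hT2
  refine hH (completeBipartiteGraph_isContained_iff.2 ⟨S₁, T₁, ?_, ?_, ?_⟩)
  · rw [hS₂, Fintype.card_fin]
  · rw [hT₂, Fintype.card_fin]
  · intro a ha b hb
    have ha2 := mem_preimage.1 (hS₁ (mem_coe.1 ha))
    have hb2 := mem_preimage.1 (hT₁ (mem_coe.1 hb))
    obtain ⟨a', b', h1, h2, h3⟩ := hadj _ ha2 _ hb2
    rw [f.injective h2, f.injective h3] at h1
    exact h1

/-- The pairs in `H`. -/
theorem mcone_card {A V : Type} [Finite A] [Finite V] (H : SimpleGraph A) (f : A ↪ V)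
    (Z : Finset V) (hZ : ∀ a, f a ∉ Z) : 2 * H.edgeSet.ncard ≤
      {p : V × V | p.1 ∉ Z ∧ p.2 ∉ Z ∧ (mcone H f Z).Adj p.1 p.2}.ncard := by
  classical
  have := Fintype.ofFinite A
  rw [← Pool.Agent.Y384.DM.card_pairs_univ H]
  refine Set.ncard_le_ncard_of_injOn (fun p => (f p.1, f p.2)) ?_ ?_ (Set.toFinite _)
  · rintro ⟨a, b⟩ hab
    have hab : H.Adj a b := hab
    refine ⟨hZ a, hZ b, fun h => hab.ne (f.injective h), Or.inr (Or.inr ?_)⟩
    rw [SimpleGraph.map_adj]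
    exact ⟨a, b, hab, rfl, rfl⟩
  · rintro ⟨a, b⟩ - ⟨a', b'⟩ - h
    have h1 := Prod.mk.inj h
    exact Prod.ext (f.injective h1.1) (f.injective h1.2)

/-- The order is attained, `r = s - m`. -/
theorem lower (r m t : ℕ) (hr : 2 ≤ r) (ht : (r - 1).factorial + m + 1 ≤ t) (n : ℕ)
    (hn : 2 ^ (2 * r + 1) + 2 * m ≤ n) :
    ∃ (G : SimpleGraph (Fin n)) (Z : Finset (Fin n)),
      (completeBipartiteGraph (Fin (r + m)) (Fin t)).Free G ∧ #Z = m ∧
      (∀ z ∈ Z, ∀ v, v ≠ z → G.Adj z v) ∧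
      (n : ℝ) ^ (2 - 1 / (r : ℝ)) ≤ 2 ^ (2 * r + 3) *
        {p : Fin n × Fin n | p.1 ∉ Z ∧ p.2 ∉ Z ∧ G.Adj p.1 p.2}.ncard := by
  classical
  have hpos : 0 < 2 ^ (2 * r + 1) := by positivity
  obtain ⟨N, rfl⟩ : ∃ N, n = N + m := ⟨n - m, by omega⟩
  have h2r : 2 ^ (2 * r + 1) = 2 * 2 ^ (2 * r) := by ring
  have hN : 2 ^ (2 * r) ≤ N := by
    have : 0 < 2 ^ (2 * r) := by positivity
    omega
  set l := Nat.log 2 N / r with hl
  have hN0 : N ≠ 0 := by
    have : 0 < 2 ^ (2 * r) := by positivity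
    omega
  have hlog : 2 * r ≤ Nat.log 2 N := Nat.le_log_of_pow_le (by norm_num) hN
  have hl2 : 2 ≤ l := by
    rw [hl, Nat.le_div_iff_mul_le (by omega)]
    exact hlog
  have hle : 2 ^ (r * l) ≤ N := by
    refine le_trans (Nat.pow_le_pow_right (by norm_num) ?_) (Nat.pow_log_le_self 2 hN0)
    rw [hl]
    exact Nat.mul_div_le _ _
  have hlt : N + m ≤ 2 * 2 ^ (r * (l + 1)) := by
    have h0 : N < 2 ^ (Nat.log 2 N + 1) := Nat.lt_pow_succ_log_self (by norm_num) N
    have h1 := Nat.lt_mul_div_succ (Nat.log 2 N) (show 0 < r by omega)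
    rw [← hl] at h1
    have h2 := h0.trans_le (Nat.pow_le_pow_right (by norm_num) h1)
    omega
  obtain ⟨w, H, -, hfree, -, hcard⟩ := Pool.Agent.TH454.BW.norm_nat r (t - m) l hr (by omega) hl2
  have hA : Fintype.card (Pool.Agent.H607R2.BW.Str (r * l)) ≤ Fintype.card (Fin N) := by
    have : Fintype.card (Pool.Agent.H607R2.BW.Str (r * l)) = 2 ^ (r * l) := by
      simp [Pool.Agent.H607R2.BW.Str]
    rw [Fintype.card_fin]
    omega
  obtain ⟨f⟩ := Function.Embedding.nonempty_of_card_le hA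
  set g : Pool.Agent.H607R2.BW.Str (r * l) ↪ Fin (N + m) := f.trans (Fin.castAddEmb m) with hg
  set Z : Finset (Fin (N + m)) := univ.map (Fin.natAddEmb N) with hZ
  have hgZ : ∀ a, g a ∉ Z := by
    intro a ha
    obtain ⟨j, -, hj⟩ := mem_map.1 ha
    have h1 : ((Fin.natAddEmb N) j : Fin (N + m)).val = N + j.val := rfl
    have h2 : (g a).val = (f a).val := rfl
    have h3 := (f a).2
    rw [← hj] at h2
    omega
  have hZm : #Z = m := by
    rw [hZ, card_map, card_univ, Fintype.card_fin]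
  refine ⟨mcone H g Z, Z, ?_, hZm, fun z hz v hv => ⟨hv.symm, Or.inl hz⟩, ?_⟩
  · refine mcone_free H g Z (r + m) t m hZm (by omega) (by omega) ?_
    rw [Nat.add_sub_cancel]
    exact hfree
  · have h3 := mcone_card H g Z hgZ
    set E := {p : Fin (N + m) × Fin (N + m) | p.1 ∉ Z ∧ p.2 ∉ Z ∧ (mcone H g Z).Adj p.1 p.2}.ncard
    rw [Nat.card_coe_set_eq] at hcard
    have h4 : 4 * 2 ^ ((2 * r - 1) * (l + 1)) ≤ 2 ^ (2 * r + 3) * E := by
      have e1 : 2 ^ ((2 * r - 1) * (l + 1)) =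
          2 ^ (2 * r - 1) * (2 ^ ((r - 1) * l) * 2 ^ (r * l)) := by
        rw [← pow_add, ← pow_add]
        congr 1
        obtain ⟨k, rfl⟩ : ∃ k, r = k + 1 := ⟨r - 1, by omega⟩
        have : 2 * (k + 1) - 1 = 2 * k + 1 := by omega
        rw [this, Nat.add_sub_cancel]
        ring
      have e2 : 2 ^ (2 * r + 3) = 16 * 2 ^ (2 * r - 1) := by
        have : (16 : ℕ) = 2 ^ 4 := by norm_num
        rw [this, ← pow_add]
        congr 1
        omega
      rw [e1, e2]
      calc 4 * (2 ^ (2 * r - 1) * (2 ^ ((r - 1) * l) * 2 ^ (r * l)))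
          ≤ 4 * (2 ^ (2 * r - 1) * (8 * H.edgeSet.ncard)) :=
            Nat.mul_le_mul_left _ (Nat.mul_le_mul_left _ hcard)
        _ = 16 * 2 ^ (2 * r - 1) * (2 * H.edgeSet.ncard) := by ring
        _ ≤ 16 * 2 ^ (2 * r - 1) * E := Nat.mul_le_mul_left _ h3
    have hr0 : (0 : ℝ) < r := by exact_mod_cast (by omega : 0 < r)
    have hr1 : (1 : ℝ) ≤ r := by exact_mod_cast (by omega : 1 ≤ r)
    have e3 : (2 : ℝ) - 1 / (r : ℝ) = (2 * r - 1) / r := by
      field_simp
    have e4 : (0 : ℝ) ≤ (2 * r - 1) / r := by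
      apply div_nonneg <;> linarith
    have h5 : ((N + m : ℕ) : ℝ) ^ (2 - 1 / (r : ℝ)) ≤
        4 * (2 : ℝ) ^ ((2 * r - 1) * (l + 1)) := by
      calc ((N + m : ℕ) : ℝ) ^ (2 - 1 / (r : ℝ)) ≤
          (2 * (2 : ℝ) ^ (r * (l + 1))) ^ (2 - 1 / (r : ℝ)) := by
            refine Real.rpow_le_rpow (Nat.cast_nonneg _) ?_ (by rw [e3]; exact e4)
            exact_mod_cast hlt
        _ = (2 : ℝ) ^ (2 - 1 / (r : ℝ)) * ((2 : ℝ) ^ (r * (l + 1))) ^ (2 - 1 / (r : ℝ)) :=
            Real.mul_rpow (by norm_num) (by positivity)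
        _ ≤ 4 * (2 : ℝ) ^ ((2 * r - 1) * (l + 1)) := by
            refine mul_le_mul ?_ (le_of_eq ?_) (by positivity) (by norm_num)
            · have : (2 : ℝ) ^ (2 - 1 / (r : ℝ)) ≤ (2 : ℝ) ^ (2 : ℝ) := by
                refine Real.rpow_le_rpow_of_exponent_le (by norm_num) ?_
                have : (0 : ℝ) ≤ 1 / r := by positivity
                linarith
              refine this.trans (le_of_eq ?_)
              norm_num
            · rw [e3, ← Real.rpow_natCast, ← Real.rpow_natCast, ← Real.rpow_mul (by norm_num)]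
              congr 1
              rw [Nat.cast_mul, Nat.cast_mul, Nat.cast_sub (by omega)]
              push_cast
              field_simp
    refine h5.trans ?_
    exact_mod_cast h4

end Pool.Agent.Y384.AS
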