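import Mathlib

/-!
# A form of the theorem of Kővári, Sós and Turán with assigned sets of vertices
-/

set_option autoImplicit false

namespace Pool.Agent.Y384.AS

open Finset SimpleGraph

/-- The functions with `u i = φ (u j)`. -/
theorem card_bad {V : Type} [Fintype V] [DecidableEq V] {q : ℕ} (φ : V → V) (i j : Fin (q + 1))
    (h : i ≠ j) :
    #(univ.filter (fun u : Fin (q + 1) → V => u i = φ (u j))) ≤ Fintype.card V ^ q := by
  have h1 : Fintype.card ({k : Fin (q + 1) // k ≠ i} → V) = Fintype.card V ^ q := by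
    rw [Fintype.card_fun]
    congr 1
    rw [Fintype.card_subtype_compl, Fintype.card_fin, Fintype.card_subtype_eq]
    omega
  rw [← h1, ← card_univ]
  refine card_le_card_of_injOn (fun u k => u k.1) (fun _ _ => mem_coe.2 (mem_univ _)) ?_
  intro u hu u' hu' huu
  have hu := (mem_filter.1 (mem_coe.1 hu)).2
  have hu' := (mem_filter.1 (mem_coe.1 hu')).2
  have h2 : ∀ k, k ≠ i → u k = u' k := fun k hk => congrFun huu ⟨k, hk⟩
  funext k
  by_cases hk : k = i
  · rw [hk, hu, hu', h2 j h.symm]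
  · exact h2 k hk

/-- The double count. -/
theorem count {V : Type} [Fintype V] [DecidableEq V] (L : Finset (V × V)) (q m t : ℕ)
    (a : Fin m → V → V) (ha : ∀ e ∈ L, ∀ j, a j e.1 ≠ e.1)
    (h : ∀ u : Fin (q + 1) → V, Function.Injective u → (∀ i j, a j (u 0) ≠ u i) →
      #(univ.filter (fun v => ∀ i, (u i, v) ∈ L)) ≤ t) :
    #L ^ (q + 1) ≤ (t + (q + 1) * (q + 1 + m)) * Fintype.card V ^ (2 * q + 1) := by
  set n := Fintype.card V with hn
  set d : V → ℕ := fun v => #(univ.filter (fun u => (u, v) ∈ L)) with hd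
  have h1 : #L = ∑ v, d v := by
    rw [card_eq_sum_card_fiberwise (f := Prod.snd) (s := L) (t := univ) fun _ _ => by simp]
    refine sum_congr rfl fun y _ => ?_
    refine card_bij' (fun e _ => e.1) (fun x _ => (x, y)) ?_ ?_ ?_ ?_
    · rintro ⟨x, y'⟩ he
      simp only [mem_filter, mem_univ, true_and] at he ⊢
      rw [← he.2]; exact he.1
    · intro x hx
      simp only [mem_filter, mem_univ, true_and] at hx ⊢
      exact ⟨hx, trivial⟩
    · rintro ⟨x, y'⟩ he
      simp only [mem_filter] at he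
      rw [← he.2]
    · intro x hx
      rfl
  have h2 : ∀ v, d v ^ (q + 1) =
      #(univ.filter (fun u : Fin (q + 1) → V => ∀ i, (u i, v) ∈ L)) := by
    intro v
    have h3 : univ.filter (fun u : Fin (q + 1) → V => ∀ i, (u i, v) ∈ L) =
        Fintype.piFinset (fun _ => univ.filter (fun u => (u, v) ∈ L)) := by
      ext u
      simp [Fintype.mem_piFinset]
    rw [h3, Fintype.card_piFinset, prod_const, card_univ, Fintype.card_fin]
  have h3 : ∑ v, d v ^ (q + 1) =
      ∑ u : Fin (q + 1) → V, #(univ.filter (fun v => ∀ i, (u i, v) ∈ L)) := by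
    have h4 := sum_card_bipartiteAbove_eq_sum_card_bipartiteBelow
      (r := fun (v : V) (u : Fin (q + 1) → V) => ∀ i, (u i, v) ∈ L)
      (s := (univ : Finset V)) (t := (univ : Finset (Fin (q + 1) → V)))
    simp only [h2]
    exact h4
  -- the bad functions
  set B1 : Finset (Fin (q + 1) → V) := (univ : Finset (Fin (q + 1) × Fin (q + 1))).biUnion
    (fun ij => if ij.1 ≠ ij.2 then univ.filter (fun u => u ij.1 = id (u ij.2)) else ∅) with hB1
  set B2 : Finset (Fin (q + 1) → V) := (univ : Finset (Fin (q + 1) × Fin m)).biUnion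
    (fun ij => if ij.1 ≠ 0 then univ.filter (fun u => u ij.1 = a ij.2 (u 0)) else ∅) with hB2
  have hB1c : #B1 ≤ (q + 1) * (q + 1) * n ^ q := by
    refine card_biUnion_le.trans ((sum_le_card_nsmul _ _ (n ^ q) ?_).trans ?_)
    · intro ij _
      split_ifs with h5
      · exact card_bad id _ _ h5
      · rw [card_empty]; exact Nat.zero_le _
    · rw [card_univ, Fintype.card_prod, Fintype.card_fin, smul_eq_mul]
  have hB2c : #B2 ≤ (q + 1) * m * n ^ q := by
    refine card_biUnion_le.trans ((sum_le_card_nsmul _ _ (n ^ q) ?_).trans ?_)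
    · intro ij _
      split_ifs with h5
      · exact card_bad (a ij.2) _ _ h5
      · rw [card_empty]; exact Nat.zero_le _
    · rw [card_univ, Fintype.card_prod, Fintype.card_fin, Fintype.card_fin, smul_eq_mul]
  have h4 : ∀ u : Fin (q + 1) → V, u ∉ B1 ∪ B2 →
      #(univ.filter (fun v => ∀ i, (u i, v) ∈ L)) ≤ t := by
    intro u hu
    rw [mem_union, not_or] at hu
    rcases (univ.filter (fun v => ∀ i, (u i, v) ∈ L)).eq_empty_or_nonempty with h5 | ⟨v, hv⟩
    · rw [h5, card_empty]; exact Nat.zero_le _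
    · have hv := (mem_filter.1 hv).2
      refine h u ?_ ?_
      · intro i j hij
        by_contra hne
        refine hu.1 (mem_biUnion.2 ⟨(i, j), mem_univ _, ?_⟩)
        rw [if_pos hne]
        exact mem_filter.2 ⟨mem_univ _, hij⟩
      · intro i j hij
        by_cases hi : i = 0
        · rw [hi] at hij
          exact ha _ (hv 0) j hij
        · refine hu.2 (mem_biUnion.2 ⟨(i, j), mem_univ _, ?_⟩)
          rw [if_pos hi]
          exact mem_filter.2 ⟨mem_univ _, hij.symm⟩
  have h5 : ∑ v, d v ^ (q + 1) ≤ (t + (q + 1) * (q + 1 + m)) * n ^ (q + 1) := by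
    rw [h3]
    calc ∑ u : Fin (q + 1) → V, #(univ.filter (fun v => ∀ i, (u i, v) ∈ L))
        ≤ ∑ u : Fin (q + 1) → V, (t + if u ∈ B1 ∪ B2 then n else 0) := by
          refine sum_le_sum fun u _ => ?_
          by_cases hu : u ∈ B1 ∪ B2
          · rw [if_pos hu]
            refine (card_le_univ _).trans ?_
            omega
          · rw [if_neg hu]
            exact h4 u hu
      _ = t * n ^ (q + 1) + #(B1 ∪ B2) * n := by
          rw [sum_add_distrib, sum_const, card_univ, Fintype.card_fun, Fintype.card_fin,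
            smul_eq_mul, ← sum_filter, sum_const, smul_eq_mul, mul_comm (n ^ (q + 1)) t]
          congr 3
          ext u
          simp
      _ ≤ t * n ^ (q + 1) + ((q + 1) * (q + 1) * n ^ q + (q + 1) * m * n ^ q) * n := by
          refine Nat.add_le_add_left (Nat.mul_le_mul_right _ ((card_union_le _ _).trans
            (Nat.add_le_add hB1c hB2c))) _
      _ = (t + (q + 1) * (q + 1 + m)) * n ^ (q + 1) := by ring
  have h6 : (∑ v, d v) ^ (q + 1) ≤ n ^ q * ∑ v, (d v) ^ (q + 1) := by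
    rcases Nat.eq_zero_or_pos n with h0 | h0
    · have : (univ : Finset V) = ∅ := by
        rw [← card_eq_zero, card_univ, ← hn, h0]
      rw [this]
      simp
    · have h7 := pow_sum_div_card_le_sum_pow (s := (univ : Finset V)) (f := fun y => (d y : ℝ))
        (fun _ _ => Nat.cast_nonneg _) q
      rw [card_univ, ← hn, div_le_iff₀ (by positivity)] at h7
      rw [mul_comm]
      exact_mod_cast h7
  rw [h1]
  calc (∑ v, d v) ^ (q + 1) ≤ n ^ q * ∑ v, (d v) ^ (q + 1) := h6
    _ ≤ n ^ q * ((t + (q + 1) * (q + 1 + m)) * n ^ (q + 1)) := Nat.mul_le_mul_left _ h5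
    _ = _ := by ring

/-- The bound for assigned sets, `p = q + 1`. -/
theorem assigned {V : Type} [Fintype V] [DecidableEq V] (G : SimpleGraph V) (q m t : ℕ)
    (hG : (completeBipartiteGraph (Fin (q + 1 + m)) (Fin t)).Free G)
    (L : Finset (V × V)) (a : Fin m → V → V)
    (hL : ∀ e ∈ L, G.Adj e.1 e.2 ∧ (∀ j, G.Adj (a j e.1) e.2 ∧ a j e.1 ≠ e.1) ∧
      Function.Injective (fun j => a j e.1)) :
    #L ^ (q + 1) ≤ (t + (q + 1) * (q + 1 + m)) * Fintype.card V ^ (2 * q + 1) := by
  refine count L q m t a (fun e he j => ((hL e he).2.1 j).2) ?_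
  intro u hu hau
  by_contra hcon
  push Not at hcon
  obtain ⟨T, hT, hTc⟩ := exists_subset_card_eq hcon.le
  have hTn : T.Nonempty ∨ t = 0 := by
    rcases Nat.eq_zero_or_pos t with h0 | h0
    · exact Or.inr h0
    · exact Or.inl (card_pos.1 (by omega))
  obtain ⟨v, hv⟩ : ∃ v, ∀ i, (u i, v) ∈ L := by
    obtain ⟨v, hv⟩ := card_pos.1 (lt_of_le_of_lt (Nat.zero_le _) hcon)
    exact ⟨v, (mem_filter.1 hv).2⟩
  have hinj : Function.Injective (fun j => a j (u 0)) := (hL _ (hv 0)).2.2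
  refine hG (completeBipartiteGraph_isContained_iff.2
    ⟨univ.image u ∪ univ.image (fun j => a j (u 0)), T, ?_, ?_, ?_⟩)
  · rw [card_union_of_disjoint, card_image_of_injective _ hu, card_image_of_injective _ hinj,
      card_univ, card_univ, Fintype.card_fin, Fintype.card_fin, Fintype.card_fin]
    rw [Finset.disjoint_left]
    intro x hx hx'
    obtain ⟨i, -, rfl⟩ := mem_image.1 hx
    obtain ⟨j, -, hj⟩ := mem_image.1 hx'
    exact hau i j hj
  · rw [hTc, Fintype.card_fin]
  · intro x hx y hy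
    have hy' := (mem_filter.1 (hT (mem_coe.1 hy))).2
    rcases mem_union.1 (mem_coe.1 hx) with hx | hx
    · obtain ⟨i, -, rfl⟩ := mem_image.1 hx
      exact (hL _ (hy' i)).1
    · obtain ⟨j, -, rfl⟩ := mem_image.1 hx
      exact ((hL _ (hy' 0)).2.1 j).1

/-- From powers to real powers. -/
theorem real_bound (L K n q : ℕ) (h : L ^ (q + 1) ≤ K * n ^ (2 * q + 1)) :
    (L : ℝ) ≤ K * (n : ℝ) ^ (2 - 1 / ((q : ℝ) + 1)) := by
  have hp0 : (0 : ℝ) < (q : ℝ) + 1 := by positivity
  have h1 : ((n : ℝ) ^ (2 - 1 / ((q : ℝ) + 1))) ^ (q + 1) = (n : ℝ) ^ (2 * q + 1 : ℕ) := by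
    rw [← Real.rpow_natCast, ← Real.rpow_mul (Nat.cast_nonneg _), ← Real.rpow_natCast]
    congr 1
    push_cast
    rw [sub_mul, div_mul_cancel₀ _ hp0.ne']
    ring
  refine le_of_pow_le_pow_left₀ (n := q + 1) (by omega) (by positivity) ?_
  rw [mul_pow, h1]
  have h2 : L ^ (q + 1) ≤ K ^ (q + 1) * n ^ (2 * q + 1) :=
    h.trans (Nat.mul_le_mul_right _ (Nat.le_self_pow (by omega) K))
  exact_mod_cast h2

section Lists

variable {V : Type} {b : ℕ} (B : V → Finset V)
  (ι : ∀ u : V, {x // x ∈ B u} ↪ Fin b)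

open Classical in
/-- The element of `B u` with the number `k`, or `u`. -/
noncomputable def pick (u : V) (k : Fin b) : V :=
  if h : ∃ x : {x // x ∈ B u}, ι u x = k then h.choose.1 else u

theorem pick_num (u : V) (x : {x // x ∈ B u}) : pick B ι u (ι u x) = x.1 := by
  have h : ∃ y : {x // x ∈ B u}, ι u y = ι u x := ⟨x, rfl⟩
  unfold pick
  rw [dif_pos h]
  exact congrArg Subtype.val ((ι u).injective h.choose_spec)

theorem num_pick (hB : ∀ u, u ∉ B u) (u : V) (k : Fin b) (h : pick B ι u k ∈ B u) :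
    ∃ x : {x // x ∈ B u}, ι u x = k ∧ x.1 = pick B ι u k := by
  by_cases h1 : ∃ x : {x // x ∈ B u}, ι u x = k
  · refine ⟨h1.choose, h1.choose_spec, ?_⟩
    unfold pick
    rw [dif_pos h1]
  · exfalso
    unfold pick at h
    rw [dif_neg h1] at h
    exact hB u h

end Lists

/-- The list version. -/
theorem lists {V : Type} [Fintype V] [DecidableEq V] (G : SimpleGraph V) [DecidableRel G.Adj]
    (q m t b : ℕ) (hG : (completeBipartiteGraph (Fin (q + 1 + m)) (Fin t)).Free G)
    (B : V → Finset V) (hB : ∀ u, u ∉ B u) (hb : ∀ u, #(B u) ≤ b) (L : Finset (V × V))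
    (hL : ∀ e ∈ L, G.Adj e.1 e.2 ∧ m ≤ #((B e.1).filter (fun x => G.Adj x e.2))) :
    (#L : ℝ) ≤ (b : ℝ) ^ m * ((t + (q + 1) * (q + 1 + m) : ℕ) *
      (Fintype.card V : ℝ) ^ (2 - 1 / ((q : ℝ) + 1))) := by
  classical
  have hι : ∀ u, Nonempty ({x // x ∈ B u} ↪ Fin b) := by
    intro u
    rw [Function.Embedding.nonempty_iff_card_le, Fintype.card_fin, Fintype.card_coe]
    exact hb u
  set ι : ∀ u, {x // x ∈ B u} ↪ Fin b := fun u => (hι u).some
  set M : (Fin m ↪ Fin b) → Finset (V × V) := fun e => L.filter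
    (fun p => ∀ j, G.Adj (pick B ι p.1 (e j)) p.2 ∧ pick B ι p.1 (e j) ∈ B p.1) with hM
  have hcov : L ⊆ (univ : Finset (Fin m ↪ Fin b)).biUnion M := by
    intro p hp
    obtain ⟨-, h2⟩ := hL p hp
    obtain ⟨g⟩ : Nonempty (Fin m ↪ {x // x ∈ (B p.1).filter (fun x => G.Adj x p.2)}) := by
      rw [Function.Embedding.nonempty_iff_card_le, Fintype.card_fin, Fintype.card_coe]
      exact h2
    have hg : ∀ j, (g j).1 ∈ B p.1 := fun j => (mem_filter.1 (g j).2).1
    have hg' : ∀ j, G.Adj (g j).1 p.2 := fun j => (mem_filter.1 (g j).2).2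
    let e : Fin m ↪ Fin b := ⟨fun j => ι p.1 ⟨(g j).1, hg j⟩, by
      intro j j' hj
      have h3 := (ι p.1).injective hj
      have h4 : (g j).1 = (g j').1 := Subtype.mk.inj h3
      exact g.injective (Subtype.ext h4)⟩
    have he : ∀ j, pick B ι p.1 (e j) = (g j).1 := fun j => pick_num B ι p.1 ⟨(g j).1, hg j⟩
    refine mem_biUnion.2 ⟨e, mem_univ _, mem_filter.2 ⟨hp, fun j => ?_⟩⟩
    rw [he j]
    exact ⟨hg' j, hg j⟩
  have hMc : ∀ e ∈ (univ : Finset (Fin m ↪ Fin b)), (#(M e) : ℝ) ≤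
      (t + (q + 1) * (q + 1 + m) : ℕ) * (Fintype.card V : ℝ) ^ (2 - 1 / ((q : ℝ) + 1)) := by
    intro e _
    refine real_bound _ _ _ _ (assigned G q m t hG (M e) (fun j u => pick B ι u (e j)) ?_)
    intro p hp
    obtain ⟨h1, h2⟩ := mem_filter.1 hp
    refine ⟨(hL p h1).1, fun j => ⟨(h2 j).1, fun h3 => ?_⟩, ?_⟩
    · have h4 := (h2 j).2
      rw [h3] at h4
      exact hB _ h4
    · intro j j' hj
      obtain ⟨x, hx, hx'⟩ := num_pick B ι hB p.1 (e j) (h2 j).2
      obtain ⟨y, hy, hy'⟩ := num_pick B ι hB p.1 (e j') (h2 j').2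
      have h5 : x = y := Subtype.ext (by rw [hx', hy']; exact hj)
      rw [h5, hy] at hx
      exact e.injective hx.symm
  have h1 : (#L : ℝ) ≤ ∑ e : Fin m ↪ Fin b, (#(M e) : ℝ) := by
    exact_mod_cast (card_le_card hcov).trans card_biUnion_le
  refine h1.trans ((sum_le_card_nsmul _ _ _ hMc).trans ?_)
  rw [card_univ, Fintype.card_embedding_eq, Fintype.card_fin, Fintype.card_fin, nsmul_eq_mul]
  refine mul_le_mul_of_nonneg_right ?_ (by positivity)
  exact_mod_cast Nat.descFactorial_le_pow b m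

/-- Sums of codegrees. -/
theorem codegrees {V : Type} [Fintype V] [DecidableEq V] (G : SimpleGraph V) [DecidableRel G.Adj]
    (q t b : ℕ) (hG : (completeBipartiteGraph (Fin (q + 1 + 1)) (Fin t)).Free G)
    (B : V → Finset V) (hB : ∀ u, u ∉ B u) (hb : ∀ u, #(B u) ≤ b) :
    ((∑ u, ∑ x ∈ B u, #(univ.filter (fun v => G.Adj u v ∧ G.Adj x v)) : ℕ) : ℝ) ≤
      (b : ℝ) * ((t + (q + 1) * (q + 1 + 1) : ℕ) *
        (Fintype.card V : ℝ) ^ (2 - 1 / ((q : ℝ) + 1))) := by
  classical
  have hι : ∀ u, Nonempty ({x // x ∈ B u} ↪ Fin b) := by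
    intro u
    rw [Function.Embedding.nonempty_iff_card_le, Fintype.card_fin, Fintype.card_coe]
    exact hb u
  set ι : ∀ u, {x // x ∈ B u} ↪ Fin b := fun u => (hι u).some
  set M : Fin b → Finset (V × V) := fun k => univ.filter
    (fun p => G.Adj p.1 p.2 ∧ G.Adj (pick B ι p.1 k) p.2 ∧ pick B ι p.1 k ∈ B p.1) with hM
  have hMc : ∀ k ∈ (univ : Finset (Fin b)), (#(M k) : ℝ) ≤
      (t + (q + 1) * (q + 1 + 1) : ℕ) * (Fintype.card V : ℝ) ^ (2 - 1 / ((q : ℝ) + 1)) := by
    intro k _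
    refine real_bound _ _ _ _ (assigned G q 1 t hG (M k) (fun _ u => pick B ι u k) ?_)
    intro p hp
    obtain ⟨-, h1, h2, h3⟩ := mem_filter.1 hp
    refine ⟨h1, fun _ => ⟨h2, fun h4 => ?_⟩, fun j j' _ => Subsingleton.elim _ _⟩
    rw [h4] at h3
    exact hB _ h3
  have h1 : ∑ u, ∑ x ∈ B u, #(univ.filter (fun v => G.Adj u v ∧ G.Adj x v)) ≤
      ∑ k : Fin b, #(M k) := by
    have h2 : ∀ k, #(M k) = ∑ u, #(univ.filter (fun v => (u, v) ∈ M k)) := by
      intro k
      rw [card_eq_sum_card_fiberwise (f := Prod.fst) (s := M k) (t := univ) fun _ _ => by simp]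
      refine sum_congr rfl fun u _ => ?_
      refine card_bij' (fun e _ => e.2) (fun x _ => (u, x)) ?_ ?_ ?_ ?_
      · rintro ⟨x, y'⟩ he
        obtain ⟨h3, h4⟩ := mem_filter.1 he
        simp only at h4
        rw [mem_filter, ← h4]
        exact ⟨mem_univ _, h3⟩
      · intro x hx
        exact mem_filter.2 ⟨(mem_filter.1 hx).2, rfl⟩
      · rintro ⟨x, y'⟩ he
        obtain ⟨h3, h4⟩ := mem_filter.1 he
        simp only at h4
        rw [h4]
      · intro x hx
        rfl
    simp only [h2]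
    rw [sum_comm]
    refine sum_le_sum fun u _ => ?_
    rw [← sum_attach]
    have h3 : ∀ x ∈ (B u).attach, #(univ.filter (fun v => G.Adj u v ∧ G.Adj x.1 v)) ≤
        #(univ.filter (fun v => (u, v) ∈ M (ι u x))) := by
      intro x _
      refine card_le_card fun v hv => ?_
      obtain ⟨-, h4, h5⟩ := mem_filter.1 hv
      refine mem_filter.2 ⟨mem_univ _, mem_filter.2 ⟨mem_univ _, h4, ?_⟩⟩
      simp only
      rw [pick_num B ι u x]
      exact ⟨h5, x.2⟩
    refine (sum_le_sum h3).trans ?_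
    rw [← sum_map (B u).attach (ι u) (fun k => #(univ.filter (fun v => (u, v) ∈ M k)))]
    exact sum_le_sum_of_subset (subset_univ _)
  have h2 : ((∑ u, ∑ x ∈ B u, #(univ.filter (fun v => G.Adj u v ∧ G.Adj x v)) : ℕ) : ℝ) ≤
      ∑ k : Fin b, (#(M k) : ℝ) := by
    exact_mod_cast h1
  refine h2.trans ((sum_le_card_nsmul _ _ _ hMc).trans ?_)
  rw [card_univ, Fintype.card_fin, nsmul_eq_mul]

end Pool.Agent.Y384.AS
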